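import Mathlib
import Pool.Agent.H55.FV.StmT

set_option autoImplicit false

/-! # Project FV (helper55), module base3 (helper40) -/

namespace Pool.Agent.H40.FV

open Pool.Agent.W608.PR Pool.Agent.H55.FU Pool.Agent.H55.FV

theorem rm_of {E m κ f : ℕ} (hm : 1 ≤ m) (hf : m ≤ f + 2)
    (h : (f + 1) * ((m + E) * κ) ≤ (E + 1) * ((f + 2 - m) * Nn E f)) : Rm E m κ f := by
  unfold Rm
  have h1 := Nn_ratio E f
  obtain ⟨k, rfl⟩ : ∃ k, m = k + 1 := ⟨m - 1, by omega⟩
  obtain ⟨t, ht⟩ : ∃ t, f + 1 = k + t := ⟨f + 1 - k, by omega⟩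
  have e1 : f + 2 - (k + 1) = t := by omega
  rw [e1] at h
  rw [Nat.add_sub_cancel]
  refine Nat.le_of_mul_le_mul_left ?_ (Nat.succ_pos f)
  have e2 : (f + 1) * (k * Nn E (f + 1) + (k + 1 + E) * κ) =
      k * (Nn E f * (f + E + 2)) + (f + 1) * ((k + 1 + E) * κ) := by
    rw [h1]
    ring
  have e3 : (f + 1) * ((k + 1 + E) * Nn E f) = k * (Nn E f * (f + E + 2)) + (E + 1) * (t * Nn E f) := by
    rw [show f + E + 2 = (f + 1) + (E + 1) by ring, ht]
    ring
  show (f + 1) * (k * Nn E (f + 1) + (k + 1 + E) * κ) ≤ (f + 1) * ((k + 1 + E) * Nn E f)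
  rw [e2, e3]
  exact Nat.add_le_add_left h _

theorem cond_step {E m X f : ℕ} (hf : m ≤ f + 2)
    (h : (f + 1) * X ≤ (E + 1) * ((f + 2 - m) * Nn E f)) :
    (f + 1 + 1) * X ≤ (E + 1) * ((f + 1 + 2 - m) * Nn E (f + 1)) := by
  have h1 := Nn_ratio E f
  obtain ⟨t, ht⟩ : ∃ t, f + 2 = m + t := ⟨f + 2 - m, by omega⟩
  have e1 : f + 2 - m = t := by omega
  have e2 : f + 1 + 2 - m = t + 1 := by omega
  rw [e1] at h
  rw [e2]
  refine Nat.le_of_mul_le_mul_left ?_ (Nat.succ_pos f)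
  show (f + 1) * ((f + 1 + 1) * X) ≤ (f + 1) * ((E + 1) * ((t + 1) * Nn E (f + 1)))
  calc (f + 1) * ((f + 1 + 1) * X) = (f + 2) * ((f + 1) * X) := by ring
    _ ≤ (f + 2) * ((E + 1) * (t * Nn E f)) := Nat.mul_le_mul_left _ h
    _ = ((E + 1) * Nn E f) * ((f + 2) * t) := by ring
    _ ≤ ((E + 1) * Nn E f) * ((f + E + 2) * (t + 1)) :=
        Nat.mul_le_mul_left _ (Nat.mul_le_mul (by omega) (by omega))
    _ = (E + 1) * ((t + 1) * (Nn E f * (f + E + 2))) := by ring
    _ = (f + 1) * ((E + 1) * ((t + 1) * Nn E (f + 1))) := by rw [h1]; ring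

theorem rm_all {E m κ f0 : ℕ} (hm : 1 ≤ m) (hf : m ≤ f0 + 2)
    (h : (f0 + 1) * ((m + E) * κ) ≤ (E + 1) * ((f0 + 2 - m) * Nn E f0)) :
    ∀ f, f0 ≤ f → Rm E m κ f := by
  intro f hff
  refine rm_of hm (by omega) ?_
  induction f, hff using Nat.le_induction with
  | base => exact h
  | succ f hff ih => exact cond_step (by omega) ih

/-- the affine step -/
theorem aff {a b N N' d : ℕ} (hd : 1 ≤ d) (hN : (d + 1) * N ≤ d * N') (h : a + d * b ≤ N) :
    a + (d + 1) * b ≤ N' := by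
  refine Nat.le_of_mul_le_mul_left ?_ hd
  calc d * (a + (d + 1) * b) ≤ (d + 1) * (a + d * b) := by nlinarith
    _ ≤ (d + 1) * N := Nat.mul_le_mul_left _ h
    _ ≤ d * N' := hN

theorem Nn_gro {E d : ℕ} (hE : 1 ≤ E) (hd : 1 ≤ d) : (d + 1) * Nn E d ≤ d * Nn E (d + 1) := by
  have h1 := Nn_ratio E d
  refine Nat.le_of_mul_le_mul_left ?_ (Nat.succ_pos d)
  show (d + 1) * ((d + 1) * Nn E d) ≤ (d + 1) * (d * Nn E (d + 1))
  calc (d + 1) * ((d + 1) * Nn E d) = ((d + 1) * (d + 1)) * Nn E d := by ring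
    _ ≤ (d * (d + E + 2)) * Nn E d := Nat.mul_le_mul_right _ (by nlinarith)
    _ = d * (Nn E d * (d + E + 2)) := by ring
    _ = (d + 1) * (d * Nn E (d + 1)) := by rw [h1]; ring

theorem dm_gro {E d : ℕ} (hE : 1 ≤ E) (hd : 1 ≤ d) : (d + 1) * dm E d ≤ d * dm E (d + 1) := by
  have h1 := Nn_ratio E d
  have h2 := dm_ratio E d
  have h3 := dm_ratio E (d + 1)
  refine Nat.le_of_mul_le_mul_left ?_ (show 0 < (d + 1) * (E + 2) by positivity)
  calc (d + 1) * (E + 2) * ((d + 1) * dm E d) = ((d + 1) * (d + 1)) * (dm E d * (E + 2)) := by ring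
    _ = ((d + 1) * (d + 1)) * ((d + E + 2) * Nn E d) := by rw [h2]
    _ ≤ (d * (d + E + 3)) * ((d + E + 2) * Nn E d) := Nat.mul_le_mul_right _ (by nlinarith)
    _ = (d * (d + E + 3)) * (Nn E d * (d + E + 2)) := by ring
    _ = (d * (d + 1)) * ((d + 1 + E + 2) * Nn E (d + 1)) := by rw [h1]; ring
    _ = (d * (d + 1)) * (dm E (d + 1) * (E + 2)) := by rw [h3]
    _ = (d + 1) * (E + 2) * (d * dm E (d + 1)) := by ring

/-- the first part of `Cndg` as an inequality without `Nn E (e + 1)` -/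
theorem first_step {E m a y e : ℕ} (hE : 1 ≤ E) (he : m ≤ e + 2)
    (h : (e + 1) * ((m + E) * (a + (e + 1) * y)) ≤ (E + 1) * ((e + 2 - m) * Nn E e)) :
    (e + 1 + 1) * ((m + E) * (a + (e + 1 + 1) * y)) ≤ (E + 1) * ((e + 1 + 2 - m) * Nn E (e + 1)) := by
  have h1 := Nn_ratio E e
  obtain ⟨t, ht⟩ : ∃ t, e + 2 = m + t := ⟨e + 2 - m, by omega⟩
  have e1 : e + 2 - m = t := by omega
  have e2 : e + 1 + 2 - m = t + 1 := by omega
  rw [e1] at h
  rw [e2]
  refine Nat.le_of_mul_le_mul_left ?_ (show 0 < (e + 1) * (e + 1) by positivity)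
  have h2 : (e + 1) * (a + (e + 2) * y) ≤ (e + 2) * (a + (e + 1) * y) := by nlinarith
  have h3 : (e + 2) * (e + 2) * t ≤ (e + 1) * ((e + E + 2) * (t + 1)) := by
    have h4 : t ≤ e + 2 := by omega
    calc (e + 2) * (e + 2) * t ≤ (e + 1) * (e + 3) * (t + 1) := by nlinarith
      _ = (e + 1) * ((e + 3) * (t + 1)) := by ring
      _ ≤ (e + 1) * ((e + E + 2) * (t + 1)) :=
          Nat.mul_le_mul_left _ (Nat.mul_le_mul_right _ (by omega))
  calc (e + 1) * (e + 1) * ((e + 1 + 1) * ((m + E) * (a + (e + 1 + 1) * y)))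
      = ((e + 1) * (e + 2) * (m + E)) * ((e + 1) * (a + (e + 2) * y)) := by ring
    _ ≤ ((e + 1) * (e + 2) * (m + E)) * ((e + 2) * (a + (e + 1) * y)) := Nat.mul_le_mul_left _ h2
    _ = ((e + 2) * (e + 2)) * ((e + 1) * ((m + E) * (a + (e + 1) * y))) := by ring
    _ ≤ ((e + 2) * (e + 2)) * ((E + 1) * (t * Nn E e)) := Nat.mul_le_mul_left _ h
    _ = ((E + 1) * Nn E e) * ((e + 2) * (e + 2) * t) := by ring
    _ ≤ ((E + 1) * Nn E e) * ((e + 1) * ((e + E + 2) * (t + 1))) := Nat.mul_le_mul_left _ h3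
    _ = (e + 1) * ((E + 1) * ((t + 1) * (Nn E e * (e + E + 2)))) := by ring
    _ = (e + 1) * (e + 1) * ((E + 1) * ((t + 1) * Nn E (e + 1))) := by rw [h1]; ring

theorem base3 : S_base3 := by
  intro E κ c c' L D hE hB
  obtain ⟨b1, b2, b3, b4, b5, b6, b7, b8, b9⟩ := hB
  refine ⟨⟨?_, ?_, b1⟩, ?_⟩
  · intro a f ha ha3 haf
    have : a = 1 ∨ a = 2 := by omega
    rcases this with rfl | rfl
    · refine rm_all (f0 := L - 1) (by norm_num) (by omega) ?_ f (by omega)
      rw [show L - 1 + 1 = L by omega, show L - 1 + 2 - (1 + 1) = L - 1 by omega,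
        show 1 + 1 + E = E + 2 by ring]
      exact b3
    · refine rm_all (f0 := L) (by norm_num) (by omega) ?_ f (by omega)
      rw [show L + 2 - (2 + 1) = L - 1 by omega, show 2 + 1 + E = E + 3 by ring]
      exact b4
  · intro f hf
    refine rm_all (f0 := L + 1) (by norm_num) (by omega) ?_ f hf
    rw [show L + 1 + 1 = L + 2 by ring, show L + 1 + 2 - 3 = L by omega, show 3 + E = E + 3 by ring]
    exact b5
  · intro d hd
    refine ⟨by omega, ?_, ?_, ?_⟩
    · -- Cndg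
      have key : ∀ e, D - 2 ≤ e → Cndg E 3 (κ 3) c c' L e := by
        intro e he
        refine ⟨?_, ?_, by omega⟩
        · have h1 : Rm E 3 (Rg E 3 (κ 3) * sz E 3 + κ 3 + Xg E 3 c c' L (e + 1)) e := by
            refine rm_of (by norm_num) (by omega) ?_
            have hX : ∀ e, Rg E 3 (κ 3) * sz E 3 + κ 3 + Xg E 3 c c' L (e + 1) =
                (Rg E 3 (κ 3) * sz E 3 + κ 3 + 3 * (Nn E L + Yg E 3 c) + c') + (e + 1) * Yg E 3 c := by
              intro e
              unfold Xg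
              ring
            rw [hX]
            have b6' := b6
            obtain ⟨D', rfl⟩ : ∃ D', D = D' + 2 := ⟨D - 2, by omega⟩
            rw [show D' + 2 - 1 = D' + 1 by omega, show D' + 2 - 3 = D' + 2 - 3 by rfl,
              show D' + 2 - 2 = D' by omega, hX, show E + 3 = 3 + E by ring] at b6'
            rw [show D' + 2 - 2 = D' by omega] at he
            clear hX
            induction e, he using Nat.le_induction with
            | base => exact b6'
            | succ e he ih => exact first_step hE (by omega) ih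
          exact h1
        · have h2 : (E + 4) * (Rg E 3 (κ 3) * sz E 3) ≤ (e - 1) * Nn E (e + 1) :=
            b7.trans (Nat.mul_le_mul (by omega) (Nn_mono E (by omega)))
          obtain ⟨e', rfl⟩ : ∃ e', e = e' + 1 := ⟨e - 1, by omega⟩
          rw [Nat.add_sub_cancel] at h2
          calc (3 + E + 1) * (Rg E 3 (κ 3) * sz E 3) + 3 * Nn E (e' + 1 + 1)
              = (E + 4) * (Rg E 3 (κ 3) * sz E 3) + 3 * Nn E (e' + 1 + 1) := by ring
            _ ≤ e' * Nn E (e' + 1 + 1) + 3 * Nn E (e' + 1 + 1) := Nat.add_le_add_right h2 _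
            _ = (e' + 1 + 2) * Nn E (e' + 1 + 1) := by ring
      intro e he1 he2
      exact key e (by omega)
    · have key : (3 * (Sz E 3 * dm E L) + 1) + d * (3 * (Sz E 3 * Rg E 3 (κ 3))) ≤ dm E d := by
        induction d, hd using Nat.le_induction with
        | base =>
          refine le_trans (le_of_eq ?_) (Nat.succ_le_of_lt b8)
          unfold Qg
          rw [Nat.succ_eq_add_one]
          ring
        | succ d hd ih => exact aff (by omega) (dm_gro hE (by omega)) ih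
      refine lt_of_lt_of_le (Nat.lt_succ_self _) (le_trans (le_of_eq ?_) key)
      unfold Qg
      rw [Nat.succ_eq_add_one]
      ring
    · have key : (dm E L * sz E 3 + κ 3 + 3 * (Nn E L + Yg E 3 c) + c') +
          d * (Rg E 3 (κ 3) * sz E 3 + Yg E 3 c) ≤ Nn E d := by
        induction d, hd using Nat.le_induction with
        | base =>
          refine le_trans (le_of_eq ?_) b9
          unfold Qg Xg
          ring
        | succ d hd ih => exact aff (by omega) (Nn_gro hE (by omega)) ih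
      refine le_trans (le_of_eq ?_) key
      unfold Qg Xg
      ring

end Pool.Agent.H40.FV
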